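import Mathlib

/-!
MP_cfec29_an: the unilateral shift on `ℓ²`, evaluation functionals.
-/

set_option autoImplicit false

namespace Pool.Agent.R842.CC

open Filter Topology Set Complex
open scoped ComplexConjugate ENNReal InnerProductSpace

/-- A bounded linear operator `T` on a complex normed space is convex-cyclic if the convex hull of
some orbit is dense. -/
def ConvexCyclic {H : Type*} [NormedAddCommGroup H] [NormedSpace ℂ H] (T : H →L[ℂ] H) : Prop :=
  ∃ x : H, Dense (convexHull ℝ (range fun n : ℕ => (T ^ n) x))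

/-- The Hilbert space of square summable sequences. -/
abbrev E : Type := lp (fun _ : ℕ => ℂ) 2

lemma memlp_iff (x : ℕ → ℂ) : Memℓp x 2 ↔ Summable fun n => ‖x n‖ ^ 2 := by
  rw [memℓp_gen_iff (by norm_num)]
  simp

lemma norm_sq (x : E) : ‖x‖ ^ 2 = ∑' n, ‖x n‖ ^ 2 := by
  have := lp.norm_rpow_eq_tsum (p := 2) (by norm_num) x
  simpa using this

lemma summ (x : E) : Summable fun n => ‖x n‖ ^ 2 := (memlp_iff _).1 (lp.memℓp x)

/-- the forward shift of a sequence -/
def shFun (x : ℕ → ℂ) : ℕ → ℂ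
  | 0 => 0
  | n + 1 => x n

/-- The unilateral forward shift `(x_0, x_1, ...) ↦ (0, x_0, x_1, ...)` on `ℓ²`. -/
noncomputable def S : E →ₗᵢ[ℂ] E where
  toFun x := ⟨shFun x, (memlp_iff _).2 ((summable_nat_add_iff 1).1 (summ x))⟩
  map_add' x y := by
    ext n
    cases n with
    | zero => exact (add_zero (0 : ℂ)).symm
    | succ n => rfl
  map_smul' c x := by
    ext n
    cases n with
    | zero => exact (mul_zero c).symm
    | succ n => rfl
  norm_map' x := by
    have h1 : ‖(⟨shFun x, (memlp_iff _).2 ((summable_nat_add_iff 1).1 (summ x))⟩ : E)‖ ^ 2 =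
        ‖x‖ ^ 2 := by
      rw [norm_sq, norm_sq, Summable.tsum_eq_zero_add]
      · simp [shFun]
      · exact (summable_nat_add_iff 1).1 (summ x)
    exact (sq_eq_sq₀ (norm_nonneg _) (norm_nonneg _)).1 h1

lemma S_zero (x : E) : S x 0 = 0 := rfl

lemma S_succ (x : E) (n : ℕ) : S x (n + 1) = x n := rfl

/-- the shift as a continuous linear map -/
noncomputable def Sh : E →L[ℂ] E := S.toContinuousLinearMap

lemma Sh_apply (x : E) : Sh x = S x := rfl

lemma norm_Sh_le : ‖Sh‖ ≤ 1 :=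
  Sh.opNorm_le_bound zero_le_one fun x => by rw [Sh_apply, S.norm_map, one_mul]

/-- the first basis vector -/
noncomputable def e0 : E := lp.single 2 0 1

lemma e0_zero : e0 0 = 1 := by simp [e0]

lemma e0_succ (n : ℕ) : e0 (n + 1) = 0 := by simp [e0]

lemma norm_e0 : ‖e0‖ = 1 := by
  rw [e0, lp.norm_single (by norm_num)]
  simp

/-- the vector `(1, v, v², ...)` -/
noncomputable def g (v : ℂ) : E :=
  if h : ‖v‖ < 1 then ⟨fun n => v ^ n, (memlp_iff _).2 (by
    have h1 : ‖v‖ ^ 2 < 1 := pow_lt_one₀ (norm_nonneg _) h two_ne_zero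
    have h2 := summable_geometric_of_lt_one (by positivity) h1
    refine h2.congr fun n => ?_
    rw [norm_pow, ← pow_mul, ← pow_mul, mul_comm])⟩ else 0

lemma g_apply {v : ℂ} (h : ‖v‖ < 1) (n : ℕ) : g v n = v ^ n := by
  simp only [g, dif_pos h]

lemma norm_g_sq {v : ℂ} (h : ‖v‖ < 1) : ‖g v‖ ^ 2 = (1 - ‖v‖ ^ 2)⁻¹ := by
  have h1 : ‖v‖ ^ 2 < 1 := pow_lt_one₀ (norm_nonneg _) h two_ne_zero
  rw [norm_sq, ← tsum_geometric_of_lt_one (by positivity) h1]
  refine tsum_congr fun n => ?_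
  rw [g_apply h, norm_pow, ← pow_mul, ← pow_mul, mul_comm]

lemma g_eq {v : ℂ} (h : ‖v‖ < 1) : g v = e0 + v • Sh (g v) := by
  ext n
  cases n with
  | zero =>
    have h1 : (e0 + v • Sh (g v)) 0 = e0 0 + v * S (g v) 0 := rfl
    rw [h1, g_apply h, e0_zero, S_zero]
    simp
  | succ n =>
    have h1 : (e0 + v • Sh (g v)) (n + 1) = e0 (n + 1) + v * S (g v) (n + 1) := rfl
    rw [h1, g_apply h, e0_succ, S_succ, g_apply h]
    ring

/-- evaluation at `w` of the function `∑ x_n w ^ n` -/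
noncomputable def ev (w : ℂ) : E →L[ℂ] ℂ := innerSL ℂ (g (conj w))

lemma hasSum_ev {w : ℂ} (h : ‖w‖ < 1) (x : E) : HasSum (fun n => x n * w ^ n) (ev w x) := by
  have h0 : ‖conj w‖ < 1 := by rwa [RCLike.norm_conj]
  have h1 : HasSum (fun n => inner ℂ (g (conj w) n) (x n)) (inner ℂ (g (conj w)) x) :=
    lp.hasSum_inner (g (conj w)) x
  refine h1.congr_fun fun n => ?_
  rw [g_apply h0, RCLike.inner_apply, map_pow, Complex.conj_conj]

lemma norm_ev_le {w : ℂ} (h : ‖w‖ < 1) (x : E) : ‖ev w x‖ ≤ ‖x‖ / (1 - ‖w‖) := by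
  have h0 : ‖conj w‖ < 1 := by rwa [RCLike.norm_conj]
  have h1 : ‖ev w x‖ ≤ ‖g (conj w)‖ * ‖x‖ := norm_inner_le_norm (𝕜 := ℂ) (g (conj w)) x
  have h2 : ‖g (conj w)‖ ≤ (1 - ‖w‖)⁻¹ := by
    have h3 := norm_g_sq h0
    rw [RCLike.norm_conj] at h3
    have h4 : 0 < 1 - ‖w‖ := by linarith
    have h5 := norm_nonneg w
    refine abs_le_of_sq_le_sq' ?_ (by positivity) |>.2
    rw [h3, inv_pow]
    refine inv_anti₀ (by positivity) ?_
    nlinarith
  calc ‖ev w x‖ ≤ ‖g (conj w)‖ * ‖x‖ := h1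
    _ ≤ (1 - ‖w‖)⁻¹ * ‖x‖ := by gcongr
    _ = ‖x‖ / (1 - ‖w‖) := by rw [div_eq_mul_inv, mul_comm]

lemma ev_Sh {w : ℂ} (h : ‖w‖ < 1) (x : E) : ev w (Sh x) = w * ev w x := by
  have h1 := hasSum_ev h (Sh x)
  have h2 := (hasSum_ev h x).mul_left w
  have h3 := (hasSum_nat_add_iff' 1).2 h1
  simp only [Finset.range_one, Finset.sum_singleton] at h3
  have h4 : Sh x 0 * w ^ 0 = 0 := by
    have : Sh x 0 = 0 := rfl
    rw [this, zero_mul]
  rw [h4, sub_zero] at h3
  refine h3.unique (h2.congr_fun fun n => ?_)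
  have : Sh x (n + 1) = x n := rfl
  rw [this, pow_succ]
  ring

lemma ev_e0 {w : ℂ} (h : ‖w‖ < 1) : ev w e0 = 1 := by
  have h1 := hasSum_ev h e0
  have h2 : HasSum (fun n => e0 n * w ^ n) (e0 0 * w ^ 0) := by
    refine hasSum_single 0 fun n hn => ?_
    obtain ⟨m, rfl⟩ := Nat.exists_eq_succ_of_ne_zero hn
    have : e0 m.succ = 0 := e0_succ m
    rw [this, zero_mul]
  rw [h1.unique h2, e0_zero]
  simp

lemma norm_apply_le (x : E) (n : ℕ) : ‖x n‖ ≤ ‖x‖ := lp.norm_apply_le_norm (by norm_num) x n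

lemma ev_diff (x : E) : DifferentiableOn ℂ (fun w => ev w x) (Metric.ball 0 1) := by
  have key : ∀ ρ : ℝ, ρ < 1 → DifferentiableOn ℂ (fun w => ev w x) (Metric.ball 0 ρ) := by
    intro ρ hρ
    rcases le_or_gt ρ 0 with h0 | h0
    · rw [Metric.ball_eq_empty.2 h0]; exact differentiableOn_empty
    have h1 : DifferentiableOn ℂ (fun w => ∑' n, x n * w ^ n) (Metric.ball 0 ρ) := by
      refine differentiableOn_tsum_of_summable_norm (u := fun n => ‖x‖ * ρ ^ n)
        ((summable_geometric_of_lt_one h0.le hρ).mul_left _) (fun n => by fun_prop)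
        Metric.isOpen_ball fun n w hw => ?_
      rw [mem_ball_zero_iff] at hw
      rw [norm_mul, norm_pow]
      gcongr
      exact norm_apply_le x n
    refine h1.congr fun w hw => ?_
    rw [mem_ball_zero_iff] at hw
    exact (hasSum_ev (hw.trans hρ) x).tsum_eq.symm
  intro w hw
  rw [mem_ball_zero_iff] at hw
  obtain ⟨ρ, h1, h2⟩ := exists_between hw
  exact ((key ρ h2).differentiableAt (Metric.isOpen_ball.mem_nhds
    (mem_ball_zero_iff.2 h1))).differentiableWithinAt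

end Pool.Agent.R842.CC
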