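import Pool.Agent.R842.CC.A

/-!
MP_cfec29_an: `T = -(20 + i) - S` is convex-cyclic.
-/

set_option autoImplicit false

namespace Pool.Agent.R842.CC

open Filter Topology Set Complex
open scoped ComplexConjugate ENNReal InnerProductSpace

/-- Hahn-Banach criterion. -/
lemma dense_of_functional {H : Type*} [NormedAddCommGroup H] [NormedSpace ℂ H] (T : H →L[ℂ] H)
    (x : H) (h : ∀ f : H →L[ℂ] ℂ, ∀ u : ℝ, (∀ n : ℕ, (f ((T ^ n) x)).re ≤ u) → f = 0) :
    ConvexCyclic T := by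
  refine ⟨x, ?_⟩
  by_contra hnd
  rw [Dense] at hnd
  push Not at hnd
  obtain ⟨y, hy⟩ := hnd
  obtain ⟨f, u, hf1, hf2⟩ := RCLike.geometric_hahn_banach_closed_point (𝕜 := ℂ)
    (convex_convexHull ℝ (range fun n : ℕ => (T ^ n) x)).closure isClosed_closure hy
  have h1 : ∀ n : ℕ, (f ((T ^ n) x)).re < u := fun n =>
    hf1 _ (subset_closure (subset_convexHull ℝ _ ⟨n, rfl⟩))
  have h2 := h f u fun n => (h1 n).le
  have h3 := h1 0
  rw [h2] at h3 hf2
  simp at h3 hf2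
  linarith

/-- the operator `i + S` -/
noncomputable def B : E →L[ℂ] E := (I : ℂ) • (1 : E →L[ℂ] E) + Sh

/-- the operator `-(20 + i) - S` -/
noncomputable def T : E →L[ℂ] E := -((20 : ℂ) • (1 : E →L[ℂ] E) + B)

lemma norm_B_le : ‖B‖ ≤ 2 := by
  refine (norm_add_le _ _).trans ?_
  rw [norm_smul, norm_I, one_mul]
  have h1 : ‖(1 : E →L[ℂ] E)‖ ≤ 1 := ContinuousLinearMap.norm_id_le
  have := norm_Sh_le
  linarith

lemma norm_one_le' : ‖(1 : E →L[ℂ] E)‖ ≤ 1 := ContinuousLinearMap.norm_id_le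

/-- polynomials in `T` with nonnegative coefficients of sum `s` -/
inductive Pos : (E →L[ℂ] E) → ℝ → Prop
  | mon (r : ℝ) (n : ℕ) : 0 ≤ r → Pos ((r : ℂ) • T ^ n) r
  | add {Y Z : E →L[ℂ] E} {b c : ℝ} : Pos Y b → Pos Z c → Pos (Y + Z) (b + c)

lemma Pos.mul {Y Z : E →L[ℂ] E} {b c : ℝ} (hY : Pos Y b) (hZ : Pos Z c) : Pos (Y * Z) (b * c) := by
  induction hY with
  | mon r n hr =>
    induction hZ with
    | mon r' n' hr' =>
      have h1 : ((r : ℂ) • T ^ n) * ((r' : ℂ) • T ^ n') = ((r * r' : ℝ) : ℂ) • T ^ (n + n') := by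
        rw [smul_mul_smul_comm, pow_add, ofReal_mul]
      rw [h1]
      exact Pos.mon _ _ (mul_nonneg hr hr')
    | add _ _ ih1 ih2 =>
      rw [mul_add, mul_add]
      exact Pos.add ih1 ih2
  | add _ _ ih1 ih2 =>
    rw [add_mul, add_mul]
    exact Pos.add ih1 ih2

lemma Pos.le {Y : E →L[ℂ] E} {b : ℝ} (hY : Pos Y b) {f : E →L[ℂ] ℂ} {u : ℝ}
    (h : ∀ n : ℕ, (f ((T ^ n) e0)).re ≤ u) : (f (Y e0)).re ≤ u * b := by
  induction hY with
  | mon r n hr =>
    have h1 : (f (((r : ℂ) • T ^ n) e0)).re = r * (f ((T ^ n) e0)).re := by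
      rw [_root_.smul_apply, map_smul, smul_eq_mul, re_ofReal_mul]
    rw [h1, mul_comm]
    exact mul_le_mul_of_nonneg_right (h n) hr
  | add _ _ ih1 ih2 =>
    rw [_root_.add_apply, map_add, add_re]
    linarith

/-- polynomials in `T` with real coefficients of weighted sum `b` -/
inductive Good : (E →L[ℂ] E) → ℝ → Prop
  | mon (r : ℝ) (n : ℕ) : Good ((r : ℂ) • T ^ n) (|r| * 3 ^ n)
  | add {Y Z : E →L[ℂ] E} {b c : ℝ} : Good Y b → Good Z c → Good (Y + Z) (b + c)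

lemma Good.mul {Y Z : E →L[ℂ] E} {b c : ℝ} (hY : Good Y b) (hZ : Good Z c) :
    Good (Y * Z) (b * c) := by
  induction hY with
  | mon r n =>
    induction hZ with
    | mon r' n' =>
      have h1 : ((r : ℂ) • T ^ n) * ((r' : ℂ) • T ^ n') = ((r * r' : ℝ) : ℂ) • T ^ (n + n') := by
        rw [smul_mul_smul_comm, pow_add, ofReal_mul]
      have h2 : |r| * 3 ^ n * (|r'| * 3 ^ n') = |r * r'| * 3 ^ (n + n') := by
        rw [abs_mul, pow_add]; ring
      rw [h1, h2]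
      exact Good.mon _ _
    | add _ _ ih1 ih2 =>
      rw [mul_add, mul_add]
      exact Good.add ih1 ih2
  | add _ _ ih1 ih2 =>
    rw [add_mul, add_mul]
    exact Good.add ih1 ih2

lemma Good.smul {Y : E →L[ℂ] E} {b : ℝ} (hY : Good Y b) (r : ℝ) : Good ((r : ℂ) • Y) (|r| * b) := by
  have h1 := (Good.mon r 0).mul hY
  rw [pow_zero, pow_zero, mul_one, smul_one_mul] at h1
  exact h1

lemma Good.nonneg {Y : E →L[ℂ] E} {b : ℝ} (hY : Good Y b) : 0 ≤ b := by
  induction hY with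
  | mon r n => positivity
  | add _ _ ih1 ih2 => linarith

lemma Good.le {Y : E →L[ℂ] E} {b : ℝ} (hY : Good Y b) {f : E →L[ℂ] ℂ} {C : ℝ}
    (h : ∀ n : ℕ, |(f ((T ^ n) e0)).re| ≤ C * 3 ^ n) : |(f (Y e0)).re| ≤ C * b := by
  induction hY with
  | mon r n =>
    have h1 : (f (((r : ℂ) • T ^ n) e0)).re = r * (f ((T ^ n) e0)).re := by
      rw [_root_.smul_apply, map_smul, smul_eq_mul, re_ofReal_mul]
    rw [h1, abs_mul]
    have h2 := mul_le_mul_of_nonneg_left (h n) (abs_nonneg r)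
    linarith
  | add _ _ ih1 ih2 =>
    rw [_root_.add_apply, map_add, add_re]
    refine (abs_add_le _ _).trans ?_
    linarith

/-- `Z = 1 + T / 20 = - B / 20` -/
noncomputable def Z : E →L[ℂ] E := 1 + ((1 / 20 : ℝ) : ℂ) • T

lemma Z_eq : Z = (-(1 / 20) : ℂ) • B := by
  rw [Z, T]
  push_cast
  rw [smul_neg, smul_add, smul_smul]
  norm_num

lemma norm_Z_le : ‖Z‖ ≤ 1 := by
  rw [Z_eq, norm_smul]
  have h1 : ‖(-(1 / 20) : ℂ)‖ = 1 / 20 := by
    rw [norm_neg, norm_div, norm_one]; norm_num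
  rw [h1]
  have := norm_B_le
  linarith

lemma pos_one : Pos 1 1 := by
  have := Pos.mon 1 0 zero_le_one
  simpa using this

lemma Z_pow (m : ℕ) : ∃ R s, Z ^ m = 1 + ((m / 20 : ℝ) : ℂ) • T + R ∧ Pos R s ∧
    s = (21 / 20) ^ m - 1 - m / 20 := by
  induction m with
  | zero =>
    refine ⟨0, 0, by simp, ?_, by simp⟩
    have := Pos.mon 0 0 le_rfl
    simpa using this
  | succ m ih =>
    obtain ⟨R, s, h1, h2, h3⟩ := ih
    refine ⟨R + (((m / 400 : ℝ) : ℂ) • T ^ 2 + R * (((1 / 20 : ℝ) : ℂ) • T ^ 1)),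
      s + (m / 400 + s * (1 / 20)), ?_,
      h2.add ((Pos.mon _ _ (by positivity)).add (h2.mul (Pos.mon _ _ (by norm_num)))), ?_⟩
    · rw [pow_succ, h1, Z]
      have h4 : (((m / 20 : ℝ) : ℂ) • T) * (((1 / 20 : ℝ) : ℂ) • T) = ((m / 400 : ℝ) : ℂ) • T ^ 2 := by
        rw [smul_mul_smul_comm, ← ofReal_mul, pow_two]
        congr 2
        ring
      have h5 : (((m + 1 : ℕ) / 20 : ℝ) : ℂ) • T = ((m / 20 : ℝ) : ℂ) • T + ((1 / 20 : ℝ) : ℂ) • T := by
        rw [← add_smul, ← ofReal_add]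
        congr 2
        push_cast; ring
      rw [h5, ← h4, pow_one]
      generalize ((m / 20 : ℝ) : ℂ) • T = a
      generalize ((1 / 20 : ℝ) : ℂ) • T = b
      noncomm_ring
    · rw [h3, pow_succ]; push_cast; ring

lemma Z_pow20 (k : ℕ) : ∃ R s, (Z ^ 20) ^ k = T ^ k + R ∧ Pos R s ∧ s = ((21 / 20) ^ 20) ^ k - 1 := by
  obtain ⟨R, s, h1, h2, h3⟩ := Z_pow 20
  have h1' : Z ^ 20 = T + (1 + R) := by
    rw [h1]
    norm_num
    abel
  have h2' := pos_one.add h2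
  induction k with
  | zero =>
    refine ⟨0, 0, by simp, ?_, by simp⟩
    have := Pos.mon 0 0 le_rfl
    simpa using this
  | succ k ih =>
    obtain ⟨Q, t, h4, h5, h6⟩ := ih
    refine ⟨((1 : ℝ) : ℂ) • T ^ k * (1 + R) + (Q * (((1 : ℝ) : ℂ) • T ^ 1) + Q * (1 + R)),
      1 * (1 + s) + (t * 1 + t * (1 + s)), ?_,
      ((Pos.mon 1 k zero_le_one).mul h2').add
        ((h5.mul (Pos.mon 1 1 zero_le_one)).add (h5.mul h2')), ?_⟩
    · rw [pow_succ, h4, h1', ofReal_one, one_smul, one_smul, pow_one, pow_succ]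
      noncomm_ring
    · rw [h3, h6, pow_succ]; push_cast; ring

lemma lower_bound {f : E →L[ℂ] ℂ} {u : ℝ} (hu : 0 ≤ u) (h : ∀ n : ℕ, (f ((T ^ n) e0)).re ≤ u)
    (n : ℕ) : |(f ((T ^ n) e0)).re| ≤ (‖f‖ + u) * 3 ^ n := by
  have h3n : (1 : ℝ) ≤ 3 ^ n := one_le_pow₀ (by norm_num)
  obtain ⟨R, s, h1, h2, h3⟩ := Z_pow20 n
  have h4 := h2.le h
  have h5 : ‖f (((Z ^ 20) ^ n) e0)‖ ≤ ‖f‖ := by
    refine (f.le_opNorm _).trans ?_
    have h6 : ‖((Z ^ 20) ^ n) e0‖ ≤ 1 := by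
      refine (ContinuousLinearMap.le_opNorm _ _).trans ?_
      rw [norm_e0, mul_one, ← pow_mul]
      rcases Nat.eq_zero_or_pos (20 * n) with h0 | h0
      · rw [h0, pow_zero]; exact norm_one_le'
      · exact (norm_pow_le' _ h0).trans (pow_le_one₀ (norm_nonneg _) norm_Z_le)
    calc ‖f‖ * ‖((Z ^ 20) ^ n) e0‖ ≤ ‖f‖ * 1 := by gcongr
      _ = ‖f‖ := mul_one _
  have h6 : (f (((Z ^ 20) ^ n) e0)).re = (f ((T ^ n) e0)).re + (f (R e0)).re := by
    rw [h1, _root_.add_apply, map_add, add_re]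
  have h7 : -‖f‖ ≤ (f (((Z ^ 20) ^ n) e0)).re :=
    (neg_le_neg h5).trans ((neg_le_neg (abs_re_le_norm _)).trans (neg_abs_le _))
  have h8 : s ≤ 3 ^ n - 1 := by
    rw [h3]
    have : ((21 / 20 : ℝ) ^ 20) ^ n ≤ 3 ^ n := pow_le_pow_left₀ (by positivity) (by norm_num) n
    linarith
  have h9 : u * s ≤ u * (3 ^ n - 1) := mul_le_mul_of_nonneg_left h8 hu
  have h10 := norm_nonneg f
  rw [abs_le]
  constructor
  · nlinarith
  · have := h n
    nlinarith

/-- The approximate identities. -/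
lemma exists_approx (k : ℕ) : ∃ Y b, Good Y b ∧ b ≤ (1 / 8) * (1 / 2) ^ k ∧
    ‖1 - Y‖ ≤ (21 / 100) * (3 / 4) ^ k := by
  induction k with
  | zero =>
    refine ⟨((1 / 400 : ℝ) : ℂ) • T ^ 2, _, Good.mon _ _, ?_, ?_⟩
    · rw [abs_of_nonneg (by norm_num)]; norm_num
    · have h1 : 1 - ((1 / 400 : ℝ) : ℂ) • T ^ 2 = -(((1 / 10 : ℝ) : ℂ) • B + ((1 / 400 : ℝ) : ℂ) • B ^ 2) := by
        have h2 : T ^ 2 = (400 : ℂ) • (1 : E →L[ℂ] E) + (40 : ℂ) • B + B ^ 2 := by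
          rw [T, neg_sq, pow_two, pow_two]
          simp only [add_mul, mul_add, smul_mul_assoc, mul_smul_comm, one_mul, mul_one, smul_smul,
            smul_add]
          norm_num
          have : (40 : ℂ) • B = (20 : ℂ) • B + (20 : ℂ) • B := by rw [← add_smul]; norm_num
          rw [this]
          abel
        rw [h2, smul_add, smul_add, smul_smul, smul_smul]
        push_cast
        norm_num
        abel
      rw [h1, norm_neg, pow_zero, mul_one]
      refine (norm_add_le _ _).trans ?_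
      rw [norm_smul, norm_smul, norm_real, norm_real, Real.norm_of_nonneg (by norm_num),
        Real.norm_of_nonneg (by norm_num)]
      have h2 := norm_B_le
      have h3 : ‖B ^ 2‖ ≤ 4 := by
        rw [pow_two]
        refine (norm_mul_le _ _).trans ?_
        nlinarith [norm_nonneg B]
      linarith
  | succ k ih =>
    obtain ⟨Y, b, h1, h2, h3⟩ := ih
    have hb := h1.nonneg
    refine ⟨((3 : ℝ) : ℂ) • (Y * Y) + ((-2 : ℝ) : ℂ) • (Y * Y * Y), _,
      ((h1.mul h1).smul 3).add (((h1.mul h1).mul h1).smul (-2)), ?_, ?_⟩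
    · have h4 : b ≤ 1 / 8 := by
        refine h2.trans ?_
        have : (1 / 2 : ℝ) ^ k ≤ 1 := pow_le_one₀ (by norm_num) (by norm_num)
        linarith
      rw [abs_of_nonneg (by norm_num), abs_of_nonpos (by norm_num), pow_succ]
      have h5 : 3 * (b * b) + - -2 * (b * b * b) ≤ b * (1 / 2) := by nlinarith [mul_nonneg hb hb]
      nlinarith
    · have h4 : 1 - (((3 : ℝ) : ℂ) • (Y * Y) + ((-2 : ℝ) : ℂ) • (Y * Y * Y)) =
          (1 - Y) * (1 - Y) * (((3 : ℝ) : ℂ) • 1 - ((2 : ℝ) : ℂ) • (1 - Y)) := by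
        simp only [sub_mul, mul_sub, mul_smul_comm, mul_one, one_mul, smul_sub]
        push_cast
        have e3 : ∀ X : E →L[ℂ] E, (3 : ℂ) • X = X + X + X := fun X => by
          rw [show (3 : ℂ) = 1 + 1 + 1 by norm_num, add_smul, add_smul, one_smul]
        have e2 : ∀ X : E →L[ℂ] E, (2 : ℂ) • X = X + X := fun X => by
          rw [show (2 : ℂ) = 1 + 1 by norm_num, add_smul, one_smul]
        simp only [neg_smul, e3, e2]
        noncomm_ring
      set y := ‖1 - Y‖ with hy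
      have hy0 : 0 ≤ y := norm_nonneg _
      have hy1 : y ≤ 21 / 100 := by
        refine h3.trans ?_
        have : (3 / 4 : ℝ) ^ k ≤ 1 := pow_le_one₀ (by norm_num) (by norm_num)
        linarith
      have h5 : ‖((3 : ℝ) : ℂ) • (1 : E →L[ℂ] E) - ((2 : ℝ) : ℂ) • (1 - Y)‖ ≤ 3 + 2 * y := by
        refine (norm_sub_le _ _).trans ?_
        rw [norm_smul, norm_smul, norm_real, norm_real, Real.norm_of_nonneg (by norm_num),
          Real.norm_of_nonneg (by norm_num)]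
        have := norm_one_le'
        linarith
      rw [h4]
      calc ‖(1 - Y) * (1 - Y) * (((3 : ℝ) : ℂ) • 1 - ((2 : ℝ) : ℂ) • (1 - Y))‖
          ≤ y * y * (3 + 2 * y) := by
            refine (norm_mul_le _ _).trans ?_
            gcongr
            exact norm_mul_le _ _
        _ ≤ y * (3 / 4) := by nlinarith [mul_nonneg hy0 hy0]
        _ ≤ (21 / 100) * (3 / 4) ^ (k + 1) := by rw [pow_succ]; nlinarith

/-- The functional vanishes on all real polynomials in `T`. -/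
lemma re_good {f : E →L[ℂ] ℂ} {C : ℝ} (h : ∀ n : ℕ, |(f ((T ^ n) e0)).re| ≤ C * 3 ^ n)
    {X : E →L[ℂ] E} {c : ℝ} (hX : Good X c) : (f (X e0)).re = 0 := by
  have hC : 0 ≤ C := by
    have := (abs_nonneg _).trans (h 0)
    simpa using this
  have h1 : ∀ k : ℕ, |(f (X e0)).re| ≤ C * (c * ((1 / 8) * (1 / 2) ^ k)) +
      ‖f‖ * (‖X‖ * ((21 / 100) * (3 / 4) ^ k)) := by
    intro k
    obtain ⟨Y, b, h2, h3, h4⟩ := exists_approx k
    have h5 : (f (X e0)).re = (f ((X * Y) e0)).re + (f ((X * (1 - Y)) e0)).re := by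
      rw [← add_re, ← map_add, ← _root_.add_apply, ← mul_add]
      simp
    have h6 := (hX.mul h2).le h
    have h7 : |(f ((X * (1 - Y)) e0)).re| ≤ ‖f‖ * (‖X‖ * ((21 / 100) * (3 / 4) ^ k)) := by
      refine (abs_re_le_norm _).trans ((f.le_opNorm _).trans ?_)
      gcongr
      refine (ContinuousLinearMap.le_opNorm _ _).trans ?_
      rw [norm_e0, mul_one]
      refine (norm_mul_le _ _).trans ?_
      gcongr
    rw [h5]
    refine (abs_add_le _ _).trans (add_le_add (h6.trans ?_) h7)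
    have := hX.nonneg
    gcongr
  have h2 : Tendsto (fun k : ℕ => C * (c * ((1 / 8) * (1 / 2) ^ k)) +
      ‖f‖ * (‖X‖ * ((21 / 100) * (3 / 4 : ℝ) ^ k))) atTop (𝓝 0) := by
    have h3 := tendsto_pow_atTop_nhds_zero_of_lt_one (show (0 : ℝ) ≤ 1 / 2 by norm_num) (by norm_num)
    have h4 := tendsto_pow_atTop_nhds_zero_of_lt_one (show (0 : ℝ) ≤ 3 / 4 by norm_num) (by norm_num)
    have h5 := (((h3.const_mul (1 / 8)).const_mul c).const_mul C).add
      (((h4.const_mul (21 / 100)).const_mul ‖X‖).const_mul ‖f‖)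
    simpa using h5
  have h3 := ge_of_tendsto' h2 h1
  exact abs_eq_zero.1 (le_antisymm h3 (abs_nonneg _))

lemma good_B : ∃ c, Good B c := by
  refine ⟨_, (?_ : Good B (|(-1 : ℝ)| * 3 ^ 1 + |(-20 : ℝ)| * 3 ^ 0))⟩
  have h1 : B = ((-1 : ℝ) : ℂ) • T ^ 1 + ((-20 : ℝ) : ℂ) • T ^ 0 := by
    rw [T, pow_one, pow_zero]
    push_cast
    rw [neg_smul, neg_smul, one_smul]
    abel
  conv => arg 1; rw [h1]
  exact (Good.mon _ _).add (Good.mon _ _)

lemma good_B_pow (n : ℕ) : ∃ c, Good (B ^ n) c := by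
  induction n with
  | zero =>
    refine ⟨_, (?_ : Good (B ^ 0) (|(1 : ℝ)| * 3 ^ 0))⟩
    have h1 : B ^ 0 = ((1 : ℝ) : ℂ) • T ^ 0 := by simp
    rw [h1]
    exact Good.mon _ _
  | succ n ih =>
    obtain ⟨c, hc⟩ := ih
    obtain ⟨d, hd⟩ := good_B
    exact ⟨c * d, by rw [pow_succ]; exact hc.mul hd⟩

/-- `Re f(B^n e_0) = 0` for every `n`. -/
lemma re_B {f : E →L[ℂ] ℂ} {u : ℝ} (h : ∀ n : ℕ, (f ((T ^ n) e0)).re ≤ u) (n : ℕ) :
    (f ((B ^ n) e0)).re = 0 := by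
  obtain ⟨c, hc⟩ := good_B_pow n
  exact re_good (lower_bound (le_max_right u 0) fun n => (h n).trans (le_max_left _ _)) hc

end Pool.Agent.R842.CC
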