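import Pool.Agent.R842.CC.B

/-!
MP_cfec29_an: functionals with `Re f(B^n e_0) = 0` for every `n` vanish.
-/

set_option autoImplicit false

namespace Pool.Agent.R842.CC

open Filter Topology Set Complex
open scoped ComplexConjugate ENNReal InnerProductSpace

lemma diff_tsum {a : ℕ → ℂ} {C : ℝ} (ha : ∀ n, ‖a n‖ ≤ C) :
    DifferentiableOn ℂ (fun w => ∑' n, a n * w ^ n) (Metric.ball 0 1) := by
  have hC : 0 ≤ C := (norm_nonneg _).trans (ha 0)
  have key : ∀ ρ : ℝ, ρ < 1 →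
      DifferentiableOn ℂ (fun w => ∑' n, a n * w ^ n) (Metric.ball 0 ρ) := by
    intro ρ hρ
    rcases le_or_gt ρ 0 with h0 | h0
    · rw [Metric.ball_eq_empty.2 h0]; exact differentiableOn_empty
    refine differentiableOn_tsum_of_summable_norm (u := fun n => C * ρ ^ n)
      ((summable_geometric_of_lt_one h0.le hρ).mul_left _) (fun n => by fun_prop)
      Metric.isOpen_ball fun n w hw => ?_
    rw [mem_ball_zero_iff] at hw
    rw [norm_mul, norm_pow]
    gcongr
    exact ha n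
  intro w hw
  rw [mem_ball_zero_iff] at hw
  obtain ⟨ρ, h1, h2⟩ := exists_between hw
  exact ((key ρ h2).differentiableAt (Metric.isOpen_ball.mem_nhds
    (mem_ball_zero_iff.2 h1))).differentiableWithinAt

/-- coefficients of a functional -/
noncomputable def fc (f : E →L[ℂ] ℂ) (n : ℕ) : ℂ := f (lp.single 2 n (1 : ℂ))

lemma norm_fc_le (f : E →L[ℂ] ℂ) (n : ℕ) : ‖fc f n‖ ≤ ‖f‖ := by
  refine (f.le_opNorm _).trans ?_
  rw [lp.norm_single (by norm_num)]
  simp

lemma hasSum_f (f : E →L[ℂ] ℂ) (x : E) : HasSum (fun n => fc f n * x n) (f x) := by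
  have h1 := (lp.hasSum_single (by norm_num) x).mapL f
  refine h1.congr_fun fun n => ?_
  have h2 : (lp.single 2 n (x n) : E) = (x n) • (lp.single 2 n (1 : ℂ) : E) := by
    rw [← lp.single_smul]; simp
  rw [h2, map_smul, smul_eq_mul, mul_comm]
  rfl

lemma f_g (f : E →L[ℂ] ℂ) {v : ℂ} (hv : ‖v‖ < 1) : f (g v) = ∑' n, fc f n * v ^ n := by
  rw [← (hasSum_f f (g v)).tsum_eq]
  exact tsum_congr fun n => by rw [g_apply hv]

/-- uniqueness of coefficients -/
lemma coeff_zero' {a : ℕ → ℂ} {C : ℝ} (ha : ∀ n, ‖a n‖ ≤ C) {δ : ℝ} (hδ : 0 < δ)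
    (h : ∀ v : ℝ, 0 < v → v < δ → v < 1 / 2 → ∑' n, a n * (v : ℂ) ^ n = 0) (n : ℕ) : a n = 0 := by
  have hC : 0 ≤ C := (norm_nonneg _).trans (ha 0)
  induction n using Nat.strong_induction_on with
  | _ n ih =>
  have key : ∀ v : ℝ, 0 < v → v < δ → v < 1 / 2 → ‖a n‖ ≤ v * (2 * C) := by
    intro v hv hvδ hv2
    have hs : Summable fun k => a k * (v : ℂ) ^ k := by
      refine Summable.of_norm_bounded (g := fun k => C * v ^ k)
        ((summable_geometric_of_lt_one hv.le (by linarith)).mul_left _) fun k => ?_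
      rw [norm_mul, norm_pow, norm_real, Real.norm_of_nonneg hv.le]
      gcongr
      exact ha k
    have h1 := h v hv hvδ hv2
    rw [← hs.sum_add_tsum_nat_add (n + 1)] at h1
    have h2 : ∑ i ∈ Finset.range (n + 1), a i * (v : ℂ) ^ i = a n * (v : ℂ) ^ n := by
      rw [Finset.sum_range_succ, Finset.sum_eq_zero, zero_add]
      intro i hi
      rw [ih i (Finset.mem_range.1 hi), zero_mul]
    rw [h2] at h1
    have h3 : ‖∑' k, a (k + (n + 1)) * (v : ℂ) ^ (k + (n + 1))‖ ≤ v ^ (n + 1) * (2 * C) := by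
      have h4 : HasSum (fun k : ℕ => v ^ (n + 1) * (C * (1 / 2 : ℝ) ^ k)) (v ^ (n + 1) * (C * 2)) :=
        (hasSum_geometric_two.mul_left C).mul_left _
      have h5 := tsum_of_norm_bounded h4 (f := fun k => a (k + (n + 1)) * (v : ℂ) ^ (k + (n + 1)))
        (fun k => by
          rw [norm_mul, norm_pow, norm_real, Real.norm_of_nonneg hv.le, pow_add]
          have h6 : v ^ k ≤ (1 / 2 : ℝ) ^ k := pow_le_pow_left₀ hv.le hv2.le k
          calc ‖a (k + (n + 1))‖ * (v ^ k * v ^ (n + 1)) ≤ C * ((1 / 2 : ℝ) ^ k * v ^ (n + 1)) := by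
                gcongr
                exact ha _
            _ = v ^ (n + 1) * (C * (1 / 2) ^ k) := by ring)
      rwa [mul_comm C 2] at h5
    have h4 : ‖a n * (v : ℂ) ^ n‖ ≤ v ^ (n + 1) * (2 * C) := by
      rw [eq_neg_of_add_eq_zero_left h1, norm_neg]
      exact h3
    rw [norm_mul, norm_pow, norm_real, Real.norm_of_nonneg hv.le, pow_succ] at h4
    have h5 : 0 < v ^ n := by positivity
    have h6 : ‖a n‖ * v ^ n ≤ (v * (2 * C)) * v ^ n := by linarith
    exact le_of_mul_le_mul_right h6 h5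
  have h2 : Tendsto (fun v : ℝ => v * (2 * C)) (𝓝[>] 0) (𝓝 0) := by
    have : Tendsto (fun v : ℝ => v * (2 * C)) (𝓝 0) (𝓝 (0 * (2 * C))) := tendsto_id.mul_const _
    rw [zero_mul] at this
    exact this.mono_left nhdsWithin_le_nhds
  have h3 : ∀ᶠ v in 𝓝[>] (0 : ℝ), ‖a n‖ ≤ v * (2 * C) := by
    have h4 : ∀ᶠ v in 𝓝[>] (0 : ℝ), v < δ := mem_nhdsWithin_of_mem_nhds (Iio_mem_nhds hδ)
    have h5 : ∀ᶠ v in 𝓝[>] (0 : ℝ), v < 1 / 2 :=
      mem_nhdsWithin_of_mem_nhds (Iio_mem_nhds (by norm_num))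
    filter_upwards [h4, h5, self_mem_nhdsWithin] with v h6 h7 h8
    exact key v h8 h6 h7
  have h4 := ge_of_tendsto h2 h3
  exact norm_le_zero_iff.1 h4

/-- the resolvent vector `(1 + u B)⁻¹ e_0` -/
noncomputable def rv (u : ℂ) : E := (1 + I * u)⁻¹ • g (-u / (1 + I * u))

lemma normSq_one_add (u : ℂ) : ‖1 + I * u‖ ^ 2 = ‖u‖ ^ 2 + (1 - 2 * u.im) := by
  rw [← normSq_eq_norm_sq, ← normSq_eq_norm_sq, normSq_apply, normSq_apply]
  simp
  ring

lemma one_add_ne {u : ℂ} (hu : u.im < 1 / 2) : 1 + I * u ≠ 0 := by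
  intro h
  have := normSq_one_add u
  rw [h, norm_zero] at this
  nlinarith [sq_nonneg ‖u‖]

lemma norm_v_lt {u : ℂ} (hu : u.im < 1 / 2) : ‖-u / (1 + I * u)‖ < 1 := by
  have h1 := normSq_one_add u
  have h2 : 0 < ‖1 + I * u‖ := norm_pos_iff.2 (one_add_ne hu)
  rw [norm_div, norm_neg, div_lt_one h2]
  refine lt_of_pow_lt_pow_left₀ 2 h2.le ?_
  rw [h1]
  linarith

lemma norm_rv_sq {u : ℂ} (hu : u.im < 1 / 2) : ‖rv u‖ ^ 2 = (1 - 2 * u.im)⁻¹ := by
  have h1 := normSq_one_add u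
  have h2 : 0 < ‖1 + I * u‖ := norm_pos_iff.2 (one_add_ne hu)
  rw [rv, norm_smul, mul_pow, norm_g_sq (norm_v_lt hu), norm_inv, norm_div, norm_neg, inv_pow,
    ← mul_inv, div_pow, mul_sub, mul_one, mul_div_cancel₀ _ (by positivity), h1]
  congr 1
  ring

lemma rv_eq {u : ℂ} (hu : u.im < 1 / 2) : rv u = e0 - u • B (rv u) := by
  have h1 := one_add_ne hu
  have h2 := g_eq (norm_v_lt hu)
  set v := -u / (1 + I * u) with hv
  have h3 : B (rv u) = (1 + I * u)⁻¹ • (I • g v + Sh (g v)) := by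
    rw [rv, ← hv, map_smul]
    rfl
  have h4 : rv u + u • B (rv u) = e0 := by
    rw [h3, rv, ← hv, smul_comm u, ← smul_add]
    have h5 : g v + u • (I • g v + Sh (g v)) = (1 + I * u) • e0 := by
      have h6 : g v + u • (I • g v + Sh (g v)) = (1 + I * u) • g v + u • Sh (g v) := by
        rw [smul_add, smul_smul, add_smul, one_smul, mul_comm u I]
        abel
      rw [h6]
      conv_lhs => arg 1; rw [h2]
      rw [smul_add, smul_smul, hv, mul_div_cancel₀ _ h1, add_assoc, ← add_smul]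
      simp
    rw [h5, smul_smul, inv_mul_cancel₀ h1, one_smul]
  rw [← h4]
  abel

lemma re_rv {f : E →L[ℂ] ℂ} (h : ∀ n : ℕ, (f ((B ^ n) e0)).re = 0) {u : ℝ} (hu : |u| < 1 / 2) :
    (f (rv u)).re = 0 := by
  have hu' : (u : ℂ).im < 1 / 2 := by simp
  have h1 : ∀ N : ℕ, (f (rv u)).re = (f (((-u : ℝ) : ℂ) ^ N • (B ^ N) (rv u))).re := by
    intro N
    induction N with
    | zero => simp
    | succ N ih =>
      rw [ih]
      have h2 : (B ^ N) (rv u) = (B ^ N) e0 + ((-u : ℝ) : ℂ) • (B ^ (N + 1)) (rv u) := by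
        conv_lhs => rw [rv_eq hu']
        rw [map_sub, map_smul, pow_succ, ofReal_neg, neg_smul, sub_eq_add_neg]
        rfl
      rw [h2, smul_add, map_add, add_re, smul_smul, ← pow_succ]
      have h3 : (f ((((-u : ℝ) : ℂ) ^ N) • (B ^ N) e0)).re = 0 := by
        rw [map_smul, smul_eq_mul, ← ofReal_pow, re_ofReal_mul, h, mul_zero]
      rw [h3, zero_add]
  have h2 : ∀ N : ℕ, |(f (rv u)).re| ≤ (2 * |u|) ^ N * (‖f‖ * ‖rv u‖) := by
    intro N
    rw [h1 N]
    refine (abs_re_le_norm _).trans ((f.le_opNorm _).trans ?_)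
    rw [norm_smul, norm_pow, norm_real, norm_neg, Real.norm_eq_abs]
    have h3 : ‖(B ^ N) (rv u)‖ ≤ 2 ^ N * ‖rv u‖ := by
      refine (ContinuousLinearMap.le_opNorm _ _).trans ?_
      gcongr
      rcases Nat.eq_zero_or_pos N with h0 | h0
      · rw [h0, pow_zero, pow_zero]; exact norm_one_le'
      · exact (norm_pow_le' _ h0).trans (pow_le_pow_left₀ (norm_nonneg _) norm_B_le _)
    calc ‖f‖ * (|u| ^ N * ‖(B ^ N) (rv u)‖) ≤ ‖f‖ * (|u| ^ N * (2 ^ N * ‖rv u‖)) := by gcongr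
      _ = (2 * |u|) ^ N * (‖f‖ * ‖rv u‖) := by rw [mul_pow]; ring
  have h3 : Tendsto (fun N : ℕ => (2 * |u|) ^ N * (‖f‖ * ‖rv u‖)) atTop (𝓝 0) := by
    have := (tendsto_pow_atTop_nhds_zero_of_lt_one (show 0 ≤ 2 * |u| by positivity)
      (by linarith)).mul_const (‖f‖ * ‖rv u‖)
    simpa using this
  exact abs_eq_zero.1 (le_antisymm (ge_of_tendsto' h3 h2) (abs_nonneg _))

/-- the function `K(u) = f((1 + u B)⁻¹ e_0)` -/
noncomputable def K (f : E →L[ℂ] ℂ) (u : ℂ) : ℂ := f (rv u)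

lemma K_diff (f : E →L[ℂ] ℂ) {u : ℂ} (hu : u.im < 1 / 2) : DifferentiableAt ℂ (K f) u := by
  have hopen : IsOpen {u : ℂ | u.im < 1 / 2} := isOpen_lt continuous_im continuous_const
  have h1 : ∀ u ∈ {u : ℂ | u.im < 1 / 2}, K f u =
      (1 + I * u)⁻¹ * (fun w => ∑' n, fc f n * w ^ n) (-u / (1 + I * u)) := by
    intro u hu
    rw [K, rv, map_smul, smul_eq_mul, f_g f (norm_v_lt hu)]
  have h2 : DifferentiableOn ℂ (fun u : ℂ =>
      (1 + I * u)⁻¹ * (fun w => ∑' n, fc f n * w ^ n) (-u / (1 + I * u))) {u : ℂ | u.im < 1 / 2} := by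
    refine DifferentiableOn.mul ?_ ?_
    · exact DifferentiableOn.inv (by fun_prop) fun u hu => one_add_ne hu
    · refine (diff_tsum (norm_fc_le f)).comp ?_ fun u hu => mem_ball_zero_iff.2 (norm_v_lt hu)
      exact DifferentiableOn.div (by fun_prop) (by fun_prop) fun u hu => one_add_ne hu
  exact (h2.congr h1).differentiableAt (hopen.mem_nhds hu)

lemma norm_K_sq (f : E →L[ℂ] ℂ) {u : ℂ} (hu : u.im < 1 / 2) :
    ‖K f u‖ ^ 2 ≤ ‖f‖ ^ 2 * (1 - 2 * u.im)⁻¹ := by
  rw [← norm_rv_sq hu, ← mul_pow]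
  exact pow_le_pow_left₀ (norm_nonneg _) (f.le_opNorm _) 2

/-- the reflected function -/
noncomputable def K2 (f : E →L[ℂ] ℂ) (u : ℂ) : ℂ := -conj (K f (conj u))

lemma K2_diff (f : E →L[ℂ] ℂ) {u : ℂ} (hu : -(1 / 2) < u.im) : DifferentiableAt ℂ (K2 f) u := by
  have h1 : (conj u).im < 1 / 2 := by rw [conj_im]; linarith
  have h2 := (K_diff f h1).conj_conj
  rw [Complex.conj_conj] at h2
  exact h2.neg

lemma K_eq_K2 {f : E →L[ℂ] ℂ} (h : ∀ n : ℕ, (f ((B ^ n) e0)).re = 0) {u : ℂ}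
    (hu1 : -(1 / 2) < u.im) (hu2 : u.im < 1 / 2) : K f u = K2 f u := by
  set W : Set ℂ := {u : ℂ | -(1 / 2) < u.im} ∩ {u : ℂ | u.im < 1 / 2} with hW
  have hWo : IsOpen W := (isOpen_lt continuous_const continuous_im).inter
    (isOpen_lt continuous_im continuous_const)
  have hWc : IsPreconnected W := by
    have : Convex ℝ W := (convex_halfSpace_im_gt _).inter (convex_halfSpace_im_lt _)
    exact this.isPreconnected
  have hd : DifferentiableOn ℂ (fun u => K f u - K2 f u) W := fun u hu =>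
    ((K_diff f hu.2).sub (K2_diff f hu.1)).differentiableWithinAt
  have ha := hd.analyticOnNhd hWo
  have h0 : (0 : ℂ) ∈ W := by constructor <;> simp
  have hfr : ∃ᶠ z in 𝓝[≠] (0 : ℂ), K f z - K2 f z = 0 := by
    have h1 : Tendsto (fun n : ℕ => ((1 / ((n : ℝ) + 3) : ℝ) : ℂ)) atTop (𝓝[≠] 0) := by
      rw [tendsto_nhdsWithin_iff]
      constructor
      · have h2 : Tendsto (fun n : ℕ => (1 / ((n : ℝ) + 3) : ℝ)) atTop (𝓝 0) := by
          have := tendsto_one_div_add_atTop_nhds_zero_nat (𝕜 := ℝ)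
          have h3 := (tendsto_add_atTop_iff_nat 2).2 this
          refine h3.congr fun n => ?_
          push_cast
          ring
        have := (continuous_ofReal.tendsto 0).comp h2
        rwa [ofReal_zero] at this
      · refine Eventually.of_forall fun n => ?_
        show ((1 / ((n : ℝ) + 3) : ℝ) : ℂ) ≠ 0
        have : (1 / ((n : ℝ) + 3) : ℝ) ≠ 0 := by positivity
        exact_mod_cast this
    refine h1.frequently (Frequently.of_forall fun n => ?_)
    have h2 : |(1 / ((n : ℝ) + 3) : ℝ)| < 1 / 2 := by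
      rw [abs_of_pos (by positivity), div_lt_div_iff₀ (by positivity) (by norm_num)]
      have : (0 : ℝ) ≤ n := Nat.cast_nonneg n
      linarith
    have h3 := re_rv h h2
    rw [K2, K, conj_ofReal, sub_neg_eq_add]
    have h4 := add_conj (f (rv ((1 / ((n : ℝ) + 3) : ℝ) : ℂ)))
    rw [K, h4, h3]
    simp
  have := ha.eqOn_zero_of_preconnected_of_frequently_eq_zero hWc h0 hfr ⟨hu1, hu2⟩
  exact sub_eq_zero.1 this

/-- the glued entire function -/
noncomputable def G (f : E →L[ℂ] ℂ) (u : ℂ) : ℂ := if u.im < 1 / 4 then K f u else K2 f u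

lemma G_eq_K {f : E →L[ℂ] ℂ} (h : ∀ n : ℕ, (f ((B ^ n) e0)).re = 0) {u : ℂ}
    (hu : u.im < 1 / 2) : G f u = K f u := by
  rw [G]
  split_ifs with h1
  · rfl
  · exact (K_eq_K2 h (by linarith) hu).symm

lemma G_eq_K2 {f : E →L[ℂ] ℂ} (h : ∀ n : ℕ, (f ((B ^ n) e0)).re = 0) {u : ℂ}
    (hu : -(1 / 2) < u.im) : G f u = K2 f u := by
  rw [G]
  split_ifs with h1
  · exact K_eq_K2 h hu (by linarith)
  · rfl

lemma G_diff {f : E →L[ℂ] ℂ} (h : ∀ n : ℕ, (f ((B ^ n) e0)).re = 0) :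
    Differentiable ℂ (G f) := by
  intro u
  rcases lt_or_ge u.im (1 / 4) with h1 | h1
  · have hopen : IsOpen {u : ℂ | u.im < 1 / 2} := isOpen_lt continuous_im continuous_const
    refine (K_diff f (show u.im < 1 / 2 by linarith)).congr_of_eventuallyEq ?_
    filter_upwards [hopen.mem_nhds (show u.im < 1 / 2 by linarith)] with z hz
    exact G_eq_K h hz
  · have hopen : IsOpen {u : ℂ | -(1 / 2) < u.im} := isOpen_lt continuous_const continuous_im
    refine (K2_diff f (show -(1 / 2) < u.im by linarith)).congr_of_eventuallyEq ?_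
    filter_upwards [hopen.mem_nhds (show -(1 / 2) < u.im by linarith)] with z hz
    exact G_eq_K2 h hz

lemma norm_K_le (f : E →L[ℂ] ℂ) {u : ℂ} (hu : u.im ≤ 1 / 4) : ‖K f u‖ ≤ 2 * ‖f‖ := by
  have h1 := norm_K_sq f (show u.im < 1 / 2 by linarith)
  have h2 : (1 - 2 * u.im)⁻¹ ≤ 2 := by
    rw [inv_le_comm₀ (by linarith) (by norm_num)]
    linarith
  have h3 : ‖K f u‖ ^ 2 ≤ (2 * ‖f‖) ^ 2 := by
    refine h1.trans ?_
    have := sq_nonneg ‖f‖
    nlinarith
  exact abs_le_of_sq_le_sq' h3 (by positivity) |>.2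

lemma G_bdd (f : E →L[ℂ] ℂ) (u : ℂ) : ‖G f u‖ ≤ 2 * ‖f‖ := by
  rw [G]
  split_ifs with h1
  · exact norm_K_le f h1.le
  · rw [K2, norm_neg, RCLike.norm_conj]
    exact norm_K_le f (by rw [conj_im]; linarith)

/-- Functionals with `Re f(B^n e_0) = 0` for every `n` vanish. -/
theorem f_zero {f : E →L[ℂ] ℂ} (h : ∀ n : ℕ, (f ((B ^ n) e0)).re = 0) : f = 0 := by
  have hconst : ∀ u w, G f u = G f w := fun u w =>
    (G_diff h).apply_eq_apply_of_bounded
      (isBounded_iff_forall_norm_le.2 ⟨2 * ‖f‖, by rintro _ ⟨z, rfl⟩; exact G_bdd f z⟩) u w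
  have hzero : ∀ u, G f u = 0 := by
    intro u
    have h1 : ∀ n : ℕ, ‖G f u‖ ^ 2 ≤ ‖f‖ ^ 2 * (1 / ((n : ℝ) + 1)) := by
      intro n
      have hn : (0 : ℝ) ≤ n := Nat.cast_nonneg n
      have h2 : (-(n : ℂ) * I).im < 1 / 2 := by simp; linarith
      rw [hconst u (-(n : ℂ) * I), G_eq_K h h2]
      refine (norm_K_sq f h2).trans ?_
      gcongr
      rw [one_div]
      refine inv_anti₀ (by positivity) ?_
      simp
      linarith
    have h2 : Tendsto (fun n : ℕ => ‖f‖ ^ 2 * (1 / ((n : ℝ) + 1))) atTop (𝓝 0) := by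
      have := (tendsto_one_div_add_atTop_nhds_zero_nat (𝕜 := ℝ)).const_mul (‖f‖ ^ 2)
      simpa using this
    have h3 := ge_of_tendsto' h2 h1
    have h4 : ‖G f u‖ ^ 2 = 0 := le_antisymm h3 (by positivity)
    exact norm_eq_zero.1 (pow_eq_zero_iff (two_ne_zero)|>.1 h4)
  have hfg : ∀ v : ℝ, 0 < v → v < 1 / 5 → f (g v) = 0 := by
    intro v hv hv2
    have hne : (1 + I * v : ℂ) ≠ 0 := by
      apply one_add_ne
      simp
    set u : ℂ := -v / (1 + I * v) with hu
    have h1 : 1 + I * u = (1 + I * v)⁻¹ := by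
      rw [hu]; field_simp; ring
    have h2 : -u / (1 + I * u) = v := by
      rw [h1, hu, div_inv_eq_mul, neg_div, neg_neg, div_mul_cancel₀ _ hne]
    have h3 : u.im < 1 / 2 := by
      have h4 : ‖u‖ < 1 / 2 := by
        rw [hu, norm_div, norm_neg, norm_real, Real.norm_of_nonneg hv.le]
        have h5 : 1 - v ≤ ‖1 + I * (v : ℂ)‖ := by
          have := norm_sub_norm_le (1 : ℂ) (-(I * v))
          rw [sub_neg_eq_add, norm_neg, norm_mul, norm_I, one_mul, norm_one, norm_real,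
            Real.norm_of_nonneg hv.le] at this
          exact this
        rw [div_lt_div_iff₀ (by linarith) (by norm_num)]
        linarith
      exact (abs_lt.1 ((abs_im_le_norm u).trans_lt h4)).2
    have h4 := hzero u
    rw [G_eq_K h h3, K, rv, h2, map_smul, smul_eq_mul] at h4
    rcases mul_eq_zero.1 h4 with h5 | h5
    · rw [h1, inv_inv] at h5
      exact absurd h5 hne
    · exact h5
  have hcoef := coeff_zero' (norm_fc_le f) (show (0 : ℝ) < 1 / 5 by norm_num) (by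
    intro v hv hv2 _
    rw [← f_g f (by rw [norm_real, Real.norm_of_nonneg hv.le]; linarith)]
    exact hfg v hv hv2)
  ext x
  have h1 := hasSum_f f x
  simp only [hcoef, zero_mul] at h1
  simpa using h1.unique hasSum_zero

/-- **Claim 1.** `T = -(20 + i) - S` is convex-cyclic. -/
theorem convexCyclic_T : ConvexCyclic T :=
  dense_of_functional T e0 fun _ _ h => f_zero (re_B h)

end Pool.Agent.R842.CC
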