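import Pool.Agent.R842.CC.C

/-!
MP_cfec29_an: `-T = 20 + i + S` is not convex-cyclic.
-/

set_option autoImplicit false

namespace Pool.Agent.R842.CC

open Filter Topology Set Complex
open scoped ComplexConjugate ENNReal InnerProductSpace
open Polynomial (aeval)

/-- The complex version of a real polynomial. -/
noncomputable def cx (P : Polynomial ℝ) : Polynomial ℂ := P.map (algebraMap ℝ ℂ)

/-- Elements of the convex hull of an orbit. -/
lemma exists_poly {H : Type*} [NormedAddCommGroup H] [NormedSpace ℂ H] (A : H →L[ℂ] H) (y : H)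
    {c : H} (hc : c ∈ convexHull ℝ (range fun n : ℕ => (A ^ n) y)) :
    ∃ P : Polynomial ℝ, (∀ n, 0 ≤ P.coeff n) ∧ P.eval 1 = 1 ∧ c = (aeval A (cx P)) y := by
  set Cs : Set H := {c | ∃ P : Polynomial ℝ, (∀ n, 0 ≤ P.coeff n) ∧ P.eval 1 = 1 ∧
    c = (aeval A (cx P)) y} with hCs
  have h1 : (range fun n : ℕ => (A ^ n) y) ⊆ Cs := by
    rintro _ ⟨n, rfl⟩
    refine ⟨Polynomial.X ^ n, fun m => ?_, by simp, ?_⟩
    · rw [Polynomial.coeff_X_pow]; split_ifs <;> norm_num
    · simp [cx]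
  have h2 : Convex ℝ Cs := by
    rintro _ ⟨P, hP1, hP2, rfl⟩ _ ⟨Q, hQ1, hQ2, rfl⟩ a b ha hb hab
    refine ⟨Polynomial.C a * P + Polynomial.C b * Q, fun n => ?_, ?_, ?_⟩
    · rw [Polynomial.coeff_add, Polynomial.coeff_C_mul, Polynomial.coeff_C_mul]
      have := hP1 n
      have := hQ1 n
      positivity
    · simp [hP2, hQ2, hab]
    · have h3 : aeval A (cx (Polynomial.C a * P + Polynomial.C b * Q)) =
          (a : ℂ) • aeval A (cx P) + (b : ℂ) • aeval A (cx Q) := by
        simp only [cx, Polynomial.map_add, Polynomial.map_mul, Polynomial.map_C, map_add, map_mul,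
          Polynomial.aeval_C, Algebra.algebraMap_eq_smul_one, smul_mul_assoc, one_mul,
          Complex.real_smul, mul_one]
      rw [h3, _root_.add_apply, _root_.smul_apply, _root_.smul_apply, Complex.coe_smul,
        Complex.coe_smul]
  exact convexHull_min h1 h2 hc

/-- the operator `20 + i + S = - T` -/
noncomputable def A : E →L[ℂ] E := (20 : ℂ) • (1 : E →L[ℂ] E) + B

lemma ev_A {w : ℂ} (h : ‖w‖ < 1) (x : E) : ev w (A x) = (20 + I + w) * ev w x := by
  have h1 : A x = (20 : ℂ) • x + (I • x + Sh x) := rfl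
  rw [h1, map_add, map_add, map_smul, map_smul, ev_Sh h, smul_eq_mul, smul_eq_mul]
  ring

lemma ev_aeval {w : ℂ} (h : ‖w‖ < 1) (Q : Polynomial ℂ) (y : E) :
    ev w ((aeval A Q) y) = Q.eval (20 + I + w) * ev w y := by
  induction Q using Polynomial.induction_on' with
  | add p q hp hq =>
    rw [map_add, _root_.add_apply, map_add, hp, hq, Polynomial.eval_add]
    ring
  | monomial n a =>
    rw [Polynomial.aeval_monomial, Polynomial.eval_monomial]
    have h1 : ∀ n : ℕ, ev w ((A ^ n) y) = (20 + I + w) ^ n * ev w y := by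
      intro n
      induction n with
      | zero => simp
      | succ n ih =>
        have : (A ^ (n + 1)) y = A ((A ^ n) y) := by rw [pow_succ']; rfl
        rw [this, ev_A h, ih]
        ring
    have h2 : (algebraMap ℂ (E →L[ℂ] E) a * A ^ n) y = a • (A ^ n) y := by
      rw [Algebra.algebraMap_eq_smul_one, smul_mul_assoc, one_mul]
      rfl
    rw [h2, map_smul, h1, smul_eq_mul]
    ring

/-- Zero-free functions of the unit disc have a logarithm. -/
lemma exists_log {F : ℂ → ℂ} (hF : DifferentiableOn ℂ F (Metric.ball 0 1))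
    (h0 : ∀ w ∈ Metric.ball (0 : ℂ) 1, F w ≠ 0) :
    ∃ q : ℂ → ℂ, DifferentiableOn ℂ q (Metric.ball 0 1) ∧
      ∀ w ∈ Metric.ball (0 : ℂ) 1, F w = exp (q w) := by
  have hd : DifferentiableOn ℂ (fun w => deriv F w / F w) (Metric.ball 0 1) :=
    (hF.deriv Metric.isOpen_ball).div hF h0
  obtain ⟨q0, hq00, hq0⟩ := hd.isExactOn_ball.with_val_at 0 (log (F 0))
  refine ⟨q0, fun w hw => (hq0 w hw).differentiableAt.differentiableWithinAt, fun w hw => ?_⟩
  have hzero : (0 : ℂ) ∈ Metric.ball (0 : ℂ) 1 := Metric.mem_ball_self one_pos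
  have h1 : ∀ z ∈ Metric.ball (0 : ℂ) 1, HasDerivAt (fun z => F z * exp (-q0 z)) 0 z := by
    intro z hz
    have h2 := (hF.differentiableAt (Metric.isOpen_ball.mem_nhds hz)).hasDerivAt
    have h3 := (hq0 z hz).neg.cexp
    have h4 := h2.mul h3
    refine h4.congr_deriv ?_
    have := h0 z hz
    field_simp
    ring
  have h5 : F w * exp (-q0 w) = F 0 * exp (-q0 0) := by
    have hdiff : DifferentiableOn ℂ (fun z => F z * exp (-q0 z)) (Metric.ball 0 1) :=
      fun z hz => (h1 z hz).differentiableAt.differentiableWithinAt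
    refine (convex_ball (0 : ℂ) 1).is_const_of_fderivWithin_eq_zero hdiff ?_ hw hzero
    intro z hz
    rw [fderivWithin_of_isOpen Metric.isOpen_ball hz]
    have := (h1 z hz).hasFDerivAt.fderiv
    rw [this]
    ext
    simp
  rw [hq00, exp_neg (log (F 0)), exp_log (h0 0 hzero), mul_inv_cancel₀ (h0 0 hzero)] at h5
  rw [exp_neg] at h5
  have h6 := exp_ne_zero (q0 w)
  field_simp at h5
  exact h5

/-- Lower bounds for zero-free functions. -/
lemma lower_bound_fn {F : ℂ → ℂ} (hF : DifferentiableOn ℂ F (Metric.ball 0 1))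
    (h0 : ∀ w ∈ Metric.ball (0 : ℂ) 1, F w ≠ 0) {a : ℝ} (ha : 0 ≤ a)
    (hb : ∀ w ∈ Metric.ball (0 : ℂ) 1, ‖F w‖ ≤ a / (1 - ‖w‖)) :
    ∃ C : ℝ, 0 ≤ C ∧ ∀ w : ℂ, ‖w‖ < 1 → Real.exp (-(C / (1 - ‖w‖) ^ 2)) ≤ ‖F w‖ := by
  obtain ⟨q, hq1, hq2⟩ := exists_log hF h0
  refine ⟨8 * (a + 1) + 4 * ‖q 0‖, by positivity, fun w hw => ?_⟩
  have hw1 : 0 < 1 - ‖w‖ := by linarith
  have hw0 := norm_nonneg w
  set R : ℝ := (1 + ‖w‖) / 2 with hR
  set M : ℝ := 2 * (a + 1) / (1 - ‖w‖) with hM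
  have hsub : Metric.ball (0 : ℂ) R ⊆ Metric.ball 0 1 := Metric.ball_subset_ball (by rw [hR]; linarith)
  have hmaps : MapsTo q (Metric.ball 0 R) {z | z.re ≤ M} := by
    intro z hz
    have hz1 := hsub hz
    have hzR : ‖z‖ < R := mem_ball_zero_iff.1 hz
    have h1 : ‖F z‖ = Real.exp (q z).re := by rw [hq2 z hz1, norm_exp]
    have h2 := hb z hz1
    rw [h1] at h2
    have h3 : a / (1 - ‖z‖) ≤ M := by
      rw [hM, div_le_div_iff₀ (by rw [hR] at hzR; linarith) hw1]
      rw [hR] at hzR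
      nlinarith
    have h4 := Real.add_one_le_exp (q z).re
    show (q z).re ≤ M
    linarith
  have hBC := Complex.borelCaratheodory (M := M) (R := R) (z := w) (f := q)
    (by positivity) (hq1.mono hsub) hmaps (by positivity) (mem_ball_zero_iff.2 (by rw [hR]; linarith))
  have hRw : R - ‖w‖ = (1 - ‖w‖) / 2 := by rw [hR]; ring
  have hkey : ‖q w‖ ≤ (8 * (a + 1) + 4 * ‖q 0‖) / (1 - ‖w‖) ^ 2 := by
    refine hBC.trans ?_
    rw [hRw, hM, ← add_div, div_le_div_iff₀ (by positivity) (by positivity)]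
    have hq0 := norm_nonneg (q 0)
    have e1 : 2 * (2 * (a + 1) / (1 - ‖w‖)) * ‖w‖ * (1 - ‖w‖) ^ 2 =
        4 * (a + 1) * ‖w‖ * (1 - ‖w‖) := by field_simp; ring
    have e2 : ‖q 0‖ * (R + ‖w‖) * (1 - ‖w‖) ^ 2 ≤ ‖q 0‖ * 2 * (1 - ‖w‖) := by
      have h3 : (R + ‖w‖) * (1 - ‖w‖) ≤ 2 := by rw [hR]; nlinarith
      have h4 : 0 ≤ ‖q 0‖ * (1 - ‖w‖) := by positivity
      nlinarith
    rw [add_mul, e1]
    nlinarith [mul_nonneg (mul_nonneg (show 0 ≤ a + 1 by linarith) hw1.le) hw1.le]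
  rw [hq2 w (mem_ball_zero_iff.2 hw), norm_exp, Real.exp_le_exp]
  have := (abs_le.1 (abs_re_le_norm (q w))).1
  linarith

lemma norm_cx_le {P : Polynomial ℝ} (hP : ∀ n, 0 ≤ P.coeff n) {z : ℂ} {r : ℝ} (hr : ‖z‖ ≤ r) :
    ‖(cx P).eval z‖ ≤ P.eval r := by
  rw [cx, Polynomial.eval_map, Polynomial.eval₂_eq_sum_range, Polynomial.eval_eq_sum_range]
  refine (norm_sum_le _ _).trans (Finset.sum_le_sum fun n _ => ?_)
  rw [norm_mul, norm_pow]
  have h1 : ‖algebraMap ℝ ℂ (P.coeff n)‖ = P.coeff n := by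
    show ‖((P.coeff n : ℝ) : ℂ)‖ = _
    rw [norm_real, Real.norm_of_nonneg (hP n)]
  rw [h1]
  have := hP n
  gcongr

lemma cx_real (P : Polynomial ℝ) (x : ℝ) : (cx P).eval (x : ℂ) = ((P.eval x : ℝ) : ℂ) := by
  rw [cx]
  rw [Polynomial.eval_map]
  exact Polynomial.eval₂_at_apply (algebraMap ℝ ℂ) x

lemma cx_conj (P : Polynomial ℝ) (z : ℂ) : ‖(cx P).eval (conj z)‖ = ‖(cx P).eval z‖ := by
  have : (cx P).eval (conj z) = conj ((cx P).eval z) := by
    rw [cx, Polynomial.eval_map, Polynomial.eval_map, Polynomial.eval₂_eq_sum_range,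
      Polynomial.eval₂_eq_sum_range, map_sum]
    refine Finset.sum_congr rfl fun n _ => ?_
    rw [map_mul, map_pow]
    congr 1
    exact (conj_ofReal _).symm
  rw [this, RCLike.norm_conj]

/-- The damping argument. -/
lemma damping {P : Polynomial ℝ} (hP : ∀ n, 0 ≤ P.coeff n) (hP1 : P.eval 1 = 1) {C : ℝ}
    (hC : 0 < C) (h : ∀ w : ℂ, ‖w‖ < 1 → ‖(cx P).eval (20 + I + w)‖ ≤ Real.exp (C / (1 - ‖w‖) ^ 2)) :
    P.eval (39 / 2) ≤ Real.exp (24 * (200 * C)) := by
  -- monotonicity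
  have hmono : ∀ a b : ℝ, 0 ≤ a → a ≤ b → P.eval a ≤ P.eval b := by
    intro a b ha hab
    rw [Polynomial.eval_eq_sum_range, Polynomial.eval_eq_sum_range]
    refine Finset.sum_le_sum fun n _ => ?_
    have := hP n
    gcongr
  have hpos : 1 ≤ P.eval (39 / 2) := by
    rw [← hP1]; exact hmono 1 _ zero_le_one (by norm_num)
  set Λ : ℝ := Real.log (P.eval (39 / 2)) with hΛ
  have hΛ0 : 0 ≤ Λ := Real.log_nonneg hpos
  have hexpΛ : Real.exp Λ = P.eval (39 / 2) := Real.exp_log (by linarith)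
  set κ : ℝ := 200 * C with hκ
  have hκ0 : 0 < κ := by positivity
  -- choice of ε
  obtain ⟨ε, hε0, hε1, hε2⟩ : ∃ ε : ℝ, 0 < ε ∧ ε < 1 / 2 ∧
      P.eval 20 * Real.exp (-(12 / 25 * κ / ε ^ 2)) ≤ 1 := by
    have h20 : 1 ≤ P.eval 20 := by rw [← hP1]; exact hmono 1 _ zero_le_one (by norm_num)
    set L := Real.log (P.eval 20) with hL
    have hL0 : 0 ≤ L := Real.log_nonneg h20
    obtain ⟨n, hn⟩ := exists_nat_gt (max 2 (L / (12 / 25 * κ)))
    have hn1 : (2 : ℝ) < n := (le_max_left _ _).trans_lt hn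
    have hn2 : L / (12 / 25 * κ) < n := (le_max_right _ _).trans_lt hn
    refine ⟨1 / n, by positivity, ?_, ?_⟩
    · rw [div_lt_div_iff₀ (by linarith) (by norm_num)]; linarith
    · rw [← Real.exp_log (show 0 < P.eval 20 by linarith), ← Real.exp_add, Real.exp_le_one_iff,
        ← hL, one_div, inv_pow, div_inv_eq_mul]
      rw [div_lt_iff₀ (by positivity)] at hn2
      have : (n : ℝ) ≤ n ^ 2 := by nlinarith
      nlinarith
  -- the damped function
  set F : ℂ → ℂ := fun z => (cx P).eval z * exp (-((κ : ℂ) / (20 - z) ^ 2)) *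
    exp (-((Λ : ℂ) * ((20 - z) * (5 / 3)))) with hF
  set U : Set ℂ := {z | 97 / 5 < z.re ∧ z.re < 20 - ε ∧ |z.im| < (20 - z.re) / 2} with hU
  set V : Set ℂ := {z | 97 / 5 ≤ z.re ∧ z.re ≤ 20 - ε ∧ |z.im| ≤ (20 - z.re) / 2} with hV
  have hVc : IsClosed V := by
    refine (isClosed_le continuous_const continuous_re).inter
      ((isClosed_le continuous_re continuous_const).inter
        (isClosed_le (continuous_abs.comp continuous_im) (by fun_prop)))
  have hUo : IsOpen U := by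
    refine (isOpen_lt continuous_const continuous_re).inter
      ((isOpen_lt continuous_re continuous_const).inter
        (isOpen_lt (continuous_abs.comp continuous_im) (by fun_prop)))
  have hUV : U ⊆ V := fun z hz => ⟨hz.1.le, hz.2.1.le, hz.2.2.le⟩
  have hclV : closure U ⊆ V := closure_minimal hUV hVc
  have hUb : Bornology.IsBounded U := by
    refine isBounded_iff_forall_norm_le.2 ⟨21, fun z hz => ?_⟩
    have h1 := hz.1
    have h2 := hz.2.1
    have h3 := hz.2.2
    refine (Complex.norm_le_abs_re_add_abs_im z).trans ?_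
    rw [abs_of_pos (show 0 < z.re by linarith)]
    linarith
  have hne : ∀ z ∈ V, (20 - z : ℂ) ≠ 0 := by
    intro z hz h0
    have h1 := hz.2.1
    have : z = 20 := by rw [sub_eq_zero] at h0; exact h0.symm
    rw [this] at h1
    simp at h1
    linarith
  have hFd : DiffContOnCl ℂ F U := by
    have h1 : DifferentiableOn ℂ F V := by
      intro z hz
      have h2 : ((20 - z) ^ 2 : ℂ) ≠ 0 := pow_ne_zero 2 (hne z hz)
      refine DifferentiableAt.differentiableWithinAt ?_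
      refine DifferentiableAt.mul (DifferentiableAt.mul (Polynomial.differentiable _ _) ?_) ?_
      · have hsq : DifferentiableAt ℂ (fun z : ℂ => (20 - z) ^ 2) z := by fun_prop
        exact (((differentiableAt_const (κ : ℂ)).div hsq h2).neg).cexp
      · fun_prop
    exact ⟨h1.mono hUV, h1.continuousOn.mono hclV⟩
  -- norm of F
  have hnF : ∀ z : ℂ, z ∈ V → ‖F z‖ ≤ ‖(cx P).eval z‖ *
      Real.exp (-(12 / 25 * κ / (20 - z.re) ^ 2)) * Real.exp (-(Λ * ((20 - z.re) * (5 / 3)))) := by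
    intro z hz
    rw [hF]
    simp only
    rw [norm_mul, norm_mul, norm_exp, norm_exp]
    have hs : ε ≤ 20 - z.re := by linarith [hz.2.1]
    set s := 20 - z.re with hs'
    have hs0 : 0 < s := by linarith
    set t := z.im with ht
    have ht1 : |t| ≤ s / 2 := hz.2.2
    have ht2 : t ^ 2 ≤ s ^ 2 / 4 := by
      have := sq_le_sq' (abs_le.1 ht1).1 (abs_le.1 ht1).2
      nlinarith
    have e1 : (-((Λ : ℂ) * ((20 - z) * (5 / 3)))).re = -(Λ * (s * (5 / 3))) := by
      have : (-((Λ : ℂ) * ((20 - z) * (5 / 3)))) = ((-(Λ * (5 / 3)) : ℝ) : ℂ) * (20 - z) := by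
        push_cast; ring
      rw [this, re_ofReal_mul]
      simp [hs']
      ring
    have e2 : (-((κ : ℂ) / (20 - z) ^ 2)).re = -(κ * ((s ^ 2 - t ^ 2) / (s ^ 2 + t ^ 2) ^ 2)) := by
      have h1 : ((20 - z) ^ 2).re = s ^ 2 - t ^ 2 := by
        rw [pow_two, mul_re]; simp [hs', ht]; ring
      have h2 : normSq ((20 - z) ^ 2) = (s ^ 2 + t ^ 2) ^ 2 := by
        rw [map_pow, normSq_apply]; simp [hs', ht]; ring
      rw [neg_re, div_eq_mul_inv, re_ofReal_mul, inv_re, h1, h2]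
    have e3 : 12 / 25 * κ / s ^ 2 ≤ κ * ((s ^ 2 - t ^ 2) / (s ^ 2 + t ^ 2) ^ 2) := by
      have hst : 0 < s ^ 2 + t ^ 2 := by positivity
      have h1 : 12 / 25 / s ^ 2 ≤ (s ^ 2 - t ^ 2) / (s ^ 2 + t ^ 2) ^ 2 := by
        rw [div_le_div_iff₀ (by positivity) (by positivity)]
        have h2 : 0 ≤ t ^ 2 := sq_nonneg t
        have h3 : 0 < s ^ 2 := by positivity
        nlinarith [mul_nonneg h2 h3.le, mul_nonneg (sub_nonneg.2 ht2) h3.le,
          mul_nonneg (sub_nonneg.2 ht2) h2]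
      calc 12 / 25 * κ / s ^ 2 = κ * (12 / 25 / s ^ 2) := by ring
        _ ≤ _ := mul_le_mul_of_nonneg_left h1 hκ0.le
    rw [e1, e2]
    gcongr
  -- the boundary
  have hbd : ∀ z ∈ frontier U, ‖F z‖ ≤ 1 := by
    intro z hz
    rw [hUo.frontier_eq] at hz
    have hzV := hclV hz.1
    have hzU := hz.2
    refine (hnF z hzV).trans ?_
    have hs : ε ≤ 20 - z.re := by linarith [hzV.2.1]
    have hs6 : 20 - z.re ≤ 3 / 5 := by linarith [hzV.1]
    have ht1 : |z.im| ≤ (20 - z.re) / 2 := hzV.2.2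
    have hcase : z.re = 97 / 5 ∨ z.re = 20 - ε ∨ |z.im| = (20 - z.re) / 2 := by
      by_contra hcon
      push Not at hcon
      apply hzU
      exact ⟨lt_of_le_of_ne hzV.1 (Ne.symm hcon.1), lt_of_le_of_ne hzV.2.1 hcon.2.1,
        lt_of_le_of_ne hzV.2.2 hcon.2.2⟩
    set s := 20 - z.re with hs'
    have hs0 : 0 < s := by linarith
    have hE1 : Real.exp (-(12 / 25 * κ / s ^ 2)) ≤ 1 := by
      rw [Real.exp_le_one_iff]
      have : 0 ≤ 12 / 25 * κ / s ^ 2 := by positivity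
      linarith
    have hE2 : Real.exp (-(Λ * (s * (5 / 3)))) ≤ 1 := by
      rw [Real.exp_le_one_iff]
      have : 0 ≤ Λ * (s * (5 / 3)) := by positivity
      linarith
    have hnz : ∀ r : ℝ, 0 ≤ r → (20 - s) ^ 2 + (s / 2) ^ 2 ≤ r ^ 2 → ‖z‖ ≤ r := by
      intro r hr h1
      refine abs_le_of_sq_le_sq' ?_ hr |>.2
      rw [← normSq_eq_norm_sq, normSq_apply]
      have h2 : z.re = 20 - s := by rw [hs']; ring
      have h3 := sq_le_sq' (abs_le.1 ht1).1 (abs_le.1 ht1).2
      rw [h2]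
      nlinarith
    rcases hcase with h1 | h1 | h1
    · have hs35 : s = 3 / 5 := by rw [hs', h1]; norm_num
      have h2 : ‖(cx P).eval z‖ ≤ Real.exp Λ := by
        rw [hexpΛ]
        refine norm_cx_le hP (hnz _ (by norm_num) ?_)
        rw [hs35]; norm_num
      calc ‖(cx P).eval z‖ * Real.exp (-(12 / 25 * κ / s ^ 2)) * Real.exp (-(Λ * (s * (5 / 3))))
          ≤ Real.exp Λ * 1 * Real.exp (-(Λ * (s * (5 / 3)))) := by gcongr
        _ = 1 := by
          rw [mul_one, ← Real.exp_add, hs35]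
          have : Λ + -(Λ * (3 / 5 * (5 / 3))) = 0 := by ring
          rw [this, Real.exp_zero]
    · have hse : s = ε := by rw [hs', h1]; ring
      have h2 : ‖(cx P).eval z‖ ≤ P.eval 20 := by
        refine norm_cx_le hP (hnz _ (by norm_num) ?_)
        rw [hse]
        nlinarith
      have h20 : 0 ≤ P.eval 20 := (norm_nonneg _).trans h2
      calc ‖(cx P).eval z‖ * Real.exp (-(12 / 25 * κ / s ^ 2)) * Real.exp (-(Λ * (s * (5 / 3))))
          ≤ P.eval 20 * Real.exp (-(12 / 25 * κ / s ^ 2)) * 1 := by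
            gcongr
        _ ≤ 1 := by rw [mul_one, hse]; exact hε2
    · have h2 : ‖(cx P).eval z‖ ≤ Real.exp (64 * C / s ^ 2) := by
        obtain ⟨w, hw1, hw2⟩ : ∃ w : ℂ, ‖(cx P).eval (20 + I + w)‖ = ‖(cx P).eval z‖ ∧
            ‖w‖ ^ 2 = s ^ 2 + (1 - s / 2) ^ 2 := by
          rcases abs_cases z.im with ⟨h3, _⟩ | ⟨h3, _⟩
          · refine ⟨z - 20 - I, by congr 2; ring, ?_⟩
            rw [← normSq_eq_norm_sq, normSq_apply]
            rw [h3] at h1
            simp only [sub_re, sub_im, I_re, I_im, h1]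
            norm_num
            rw [hs']; ring
          · refine ⟨conj z - 20 - I, by rw [← cx_conj P z]; congr 2; ring, ?_⟩
            rw [← normSq_eq_norm_sq, normSq_apply]
            rw [h3] at h1
            simp only [sub_re, sub_im, I_re, I_im, conj_re, conj_im, h1]
            norm_num
            rw [hs']; ring
        have hw3 : ‖w‖ ≤ 1 - s / 8 := by
          refine abs_le_of_sq_le_sq' ?_ (by linarith) |>.2
          rw [hw2]
          nlinarith
        have hw4 : ‖w‖ < 1 := by linarith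
        rw [← hw1]
        refine (h w hw4).trans ?_
        rw [Real.exp_le_exp]
        have hw5 : s / 8 ≤ 1 - ‖w‖ := by linarith
        calc C / (1 - ‖w‖) ^ 2 ≤ C / (s / 8) ^ 2 := by gcongr
          _ = 64 * C / s ^ 2 := by field_simp; ring
      calc ‖(cx P).eval z‖ * Real.exp (-(12 / 25 * κ / s ^ 2)) * Real.exp (-(Λ * (s * (5 / 3))))
          ≤ Real.exp (64 * C / s ^ 2) * Real.exp (-(12 / 25 * κ / s ^ 2)) * 1 := by gcongr
        _ ≤ 1 := by
          rw [mul_one, ← Real.exp_add, Real.exp_le_one_iff, hκ]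
          have h3 : 64 * C / s ^ 2 + -(12 / 25 * (200 * C) / s ^ 2) = -(32 * (C / s ^ 2)) := by
            field_simp; ring
          rw [h3]
          have : 0 ≤ 32 * (C / s ^ 2) := by positivity
          linarith
  -- the point 39 / 2
  have hmem : (((39 / 2 : ℝ) : ℂ)) ∈ closure U := by
    refine subset_closure ⟨?_, ?_, ?_⟩
    · rw [ofReal_re]; norm_num
    · rw [ofReal_re]; linarith
    · rw [ofReal_re, ofReal_im]; norm_num
  have hfin := Complex.norm_le_of_forall_mem_frontier_norm_le hUb hFd hbd hmem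
  have hval : ‖F ((39 / 2 : ℝ) : ℂ)‖ = Real.exp (Λ - 4 * κ - 5 / 6 * Λ) := by
    rw [hF]
    simp only
    rw [norm_mul, norm_mul, cx_real, norm_real, Real.norm_of_nonneg (by linarith), ← hexpΛ,
      norm_exp, norm_exp, ← Real.exp_add, ← Real.exp_add]
    have e1 : (-((κ : ℂ) / (20 - ((39 / 2 : ℝ) : ℂ)) ^ 2)) = ((-(4 * κ) : ℝ) : ℂ) := by
      push_cast; norm_num; ring
    have e2 : (-((Λ : ℂ) * ((20 - ((39 / 2 : ℝ) : ℂ)) * (5 / 3)))) = ((-(5 / 6 * Λ) : ℝ) : ℂ) := by
      push_cast; norm_num; ring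
    rw [e1, e2, ofReal_re, ofReal_re]
    congr 1
  rw [hval, Real.exp_le_one_iff] at hfin
  rw [← hexpΛ, Real.exp_le_exp]
  linarith

end Pool.Agent.R842.CC
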